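import Mathlib

set_option autoImplicit false

namespace Pool.Agent.Results.MP_32086b_nt.RationalRoots

open Polynomial

/-- The Stern polynomials: `B 0 = 0`, `B 1 = 1`, `B (2 n) = X * B n` and
`B (2 n + 1) = B n + B (n + 1)`. -/
noncomputable def B : ℕ → ℤ[X]
  | 0 => 0
  | 1 => 1
  | (n + 2) =>
    if n % 2 = 0 then X * B (n / 2 + 1)
    else B (n / 2 + 1) + B (n / 2 + 2)
termination_by n => n
decreasing_by all_goals omega

theorem B_zero : B 0 = 0 := by rw [B]

theorem B_one : B 1 = 1 := by rw [B]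

theorem B_even (n : ℕ) (hn : 1 ≤ n) : B (2 * n) = X * B n := by
  obtain ⟨k, rfl⟩ := Nat.exists_eq_add_of_le' hn
  have h : 2 * (k + 1) = 2 * k + 2 := by ring
  rw [h, B, if_pos (by omega)]
  congr 2
  omega

theorem B_odd (n : ℕ) : B (2 * n + 1) = B n + B (n + 1) := by
  rcases Nat.eq_zero_or_pos n with rfl | hn
  · rw [mul_zero, zero_add, B_zero, zero_add]
  · obtain ⟨k, rfl⟩ := Nat.exists_eq_add_of_le' hn
    have h : 2 * (k + 1) + 1 = (2 * k + 1) + 2 := by ring
    rw [h, B, if_neg (by omega)]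
    have h1 : (2 * k + 1) / 2 = k := by omega
    rw [h1]

/-- The value of the `n`-th Stern polynomial at `t`. -/
noncomputable def b (t : ℚ) (n : ℕ) : ℚ := aeval t (B n)

theorem b_zero (t : ℚ) : b t 0 = 0 := by rw [b, B_zero, map_zero]

theorem b_one (t : ℚ) : b t 1 = 1 := by rw [b, B_one, map_one]

theorem b_even (t : ℚ) (n : ℕ) : b t (2 * n) = t * b t n := by
  rcases Nat.eq_zero_or_pos n with rfl | hn
  · rw [mul_zero, b_zero, mul_zero]
  · rw [b, B_even n hn, map_mul, aeval_X, b]

theorem b_odd (t : ℚ) (n : ℕ) : b t (2 * n + 1) = b t n + b t (n + 1) := by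
  rw [b, B_odd, map_add, b, b]

/-- The ratio of the pair lies in `[-2, -1/2]`. -/
def Bad (x y : ℚ) : Prop := x ≠ 0 ∧ ∃ s : ℚ, -2 ≤ s ∧ s ≤ -1 / 2 ∧ y = s * x

theorem Bad.symm {x y : ℚ} (h : Bad x y) : Bad y x := by
  obtain ⟨hx, s, h1, h2, h3⟩ := h
  have hs : s ≠ 0 := by rintro rfl; norm_num at h2
  have hs0 : s < 0 := lt_of_le_of_lt h2 (by norm_num)
  refine ⟨?_, s⁻¹, ?_, ?_, ?_⟩
  · rw [h3]; exact mul_ne_zero hs hx
  · rw [← one_div, le_div_iff_of_neg hs0]; linarith
  · rw [← one_div, div_le_iff_of_neg hs0]; linarith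
  · rw [h3, inv_mul_cancel_left₀ hs]

theorem Bad.back {t x y : ℚ} (ht : -1 / 4 ≤ t) (ht0 : t < 0) (h : Bad (t * x) (x + y)) :
    Bad x y := by
  obtain ⟨hx, s, h1, h2, h3⟩ := h
  refine ⟨right_ne_zero_of_mul hx, s * t - 1, ?_, ?_, ?_⟩
  · nlinarith
  · nlinarith
  · linear_combination h3

theorem not_bad (t : ℚ) (ht : -1 / 4 ≤ t) (ht0 : t < 0) (n : ℕ) :
    ¬ Bad (b t n) (b t (n + 1)) := by
  induction n using Nat.strong_induction_on with
  | _ n ih =>
    intro h
    rcases Nat.even_or_odd' n with ⟨k, rfl | rfl⟩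
    · rcases Nat.eq_zero_or_pos k with rfl | hk
      · apply h.1
        rw [mul_zero, b_zero]
      · rw [b_even, b_odd] at h
        exact ih k (by omega) (h.back ht ht0)
    · rw [show 2 * k + 1 + 1 = 2 * (k + 1) by ring, b_even, b_odd, add_comm (b t k)] at h
      exact ih k (by omega) (h.symm.back ht ht0).symm

theorem b_ne_zero (t : ℚ) (ht : -1 / 4 ≤ t) (ht0 : t < 0) (n : ℕ) (hn : 1 ≤ n) :
    b t n ≠ 0 := by
  induction n using Nat.strong_induction_on with
  | _ n ih =>
    rcases Nat.even_or_odd' n with ⟨k, rfl | rfl⟩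
    · rw [b_even]
      exact mul_ne_zero ht0.ne (ih k (by omega) (by omega))
    · rcases Nat.eq_zero_or_pos k with rfl | hk
      · rw [mul_zero, zero_add, b_one]; exact one_ne_zero
      · rw [b_odd]
        intro h0
        refine not_bad t ht ht0 k ⟨ih k (by omega) hk, -1, by norm_num, by norm_num, ?_⟩
        linear_combination h0

theorem b_pos (t : ℚ) (ht : 0 < t) (n : ℕ) (hn : 1 ≤ n) : 0 < b t n := by
  induction n using Nat.strong_induction_on with
  | _ n ih =>
    rcases Nat.even_or_odd' n with ⟨k, rfl | rfl⟩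
    · rw [b_even]
      exact mul_pos ht (ih k (by omega) (by omega))
    · rcases Nat.eq_zero_or_pos k with rfl | hk
      · rw [mul_zero, zero_add, b_one]; exact one_pos
      · rw [b_odd]
        exact add_pos (ih k (by omega) hk) (ih (k + 1) (by omega) (by omega))

/-- The constant coefficient of `B n` is `1` for odd `n` and `0` for even `n`. -/
theorem coeff_zero (n : ℕ) : (B n).coeff 0 = if n % 2 = 1 then 1 else 0 := by
  induction n using Nat.strong_induction_on with
  | _ n ih =>
    rcases Nat.even_or_odd' n with ⟨k, rfl | rfl⟩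
    · rw [if_neg (by omega)]
      rcases Nat.eq_zero_or_pos k with rfl | hk
      · rw [mul_zero, B_zero, Polynomial.coeff_zero]
      · rw [B_even k hk, coeff_X_mul_zero]
    · rw [if_pos (by omega)]
      rcases Nat.eq_zero_or_pos k with rfl | hk
      · rw [mul_zero, zero_add, B_one, coeff_one_zero]
      · rw [B_odd, coeff_add, ih k (by omega), ih (k + 1) (by omega)]
        rcases Nat.even_or_odd' k with ⟨l, rfl | rfl⟩
        · rw [if_neg (by omega), if_pos (by omega), zero_add]
        · rw [if_pos (by omega), if_neg (by omega), add_zero]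

/-- If `a ≠ 0` is a rational root of some Stern polynomial, then it is a root of one of odd
index. -/
theorem exists_odd (a : ℚ) (ha : a ≠ 0) (n : ℕ) (hn : 1 ≤ n) (h : b a n = 0) :
    ∃ m, m % 2 = 1 ∧ b a m = 0 := by
  induction n using Nat.strong_induction_on with
  | _ n ih =>
    rcases Nat.even_or_odd' n with ⟨k, rfl | rfl⟩
    · rw [b_even] at h
      exact ih k (by omega) (by omega) ((mul_eq_zero.mp h).resolve_left ha)
    · exact ⟨2 * k + 1, by omega, h⟩

/-- The rational numbers that are a root of some Stern polynomial `B n`, `n ≥ 1`, are exactly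
`-1`, `-1/2`, `-1/3` and `0`. -/
theorem result : {a : ℚ | ∃ n : ℕ, 1 ≤ n ∧ aeval a (B n) = 0} = {-1, -1 / 2, -1 / 3, 0} := by
  ext a
  simp only [Set.mem_ofPred_eq, Set.mem_insert_iff, Set.mem_singleton_iff]
  constructor
  · rintro ⟨n, hn, h⟩
    by_cases ha : a = 0
    · exact Or.inr (Or.inr (Or.inr ha))
    obtain ⟨m, hm, hm0⟩ := exists_odd a ha n hn h
    have hneg : a < 0 := by
      rcases lt_or_ge a 0 with h1 | h1
      · exact h1
      · exact absurd hm0 (b_pos a (lt_of_le_of_ne h1 (Ne.symm ha)) m (by omega)).ne'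
    have hlt : a < -1 / 4 := by
      by_contra h1
      exact b_ne_zero a (not_lt.mp h1) hneg m (by omega) hm0
    have hdvd : IsFractionRing.num ℤ a ∣ (B m).coeff 0 := num_dvd_of_is_root hm0
    rw [coeff_zero, if_pos hm] at hdvd
    have hunit : IsUnit (IsFractionRing.num ℤ a) := isUnit_of_dvd_one hdvd
    have hmk : (IsFractionRing.num ℤ a : ℚ) / ((IsFractionRing.den ℤ a : ℤ) : ℚ) = a := by
      have := IsFractionRing.mk'_num_den ℤ a
      rw [IsFractionRing.mk'_eq_div] at this
      simpa using this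
    obtain ⟨d, hd⟩ : ∃ d : ℤ, d = ((IsFractionRing.den ℤ a : nonZeroDivisors ℤ) : ℤ) := ⟨_, rfl⟩
    rw [← hd] at hmk
    have hd0 : d ≠ 0 := by rw [hd]; exact nonZeroDivisors.coe_ne_zero _
    have key : ∃ q : ℤ, q ≠ 0 ∧ (q : ℚ) * a = -1 := by
      rcases Int.isUnit_iff.mp hunit with h1 | h1
      · refine ⟨-d, neg_ne_zero.mpr hd0, ?_⟩
        rw [h1] at hmk
        have hdq : (d : ℚ) ≠ 0 := by exact_mod_cast hd0
        rw [← hmk]; push_cast; field_simp
      · refine ⟨d, hd0, ?_⟩
        rw [h1] at hmk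
        have hdq : (d : ℚ) ≠ 0 := by exact_mod_cast hd0
        rw [← hmk]; push_cast; field_simp
    obtain ⟨q, hq0, hq⟩ := key
    have hqpos : 0 < q := by
      by_contra h1
      have h2 : (q : ℚ) ≤ 0 := by exact_mod_cast not_lt.mp h1
      nlinarith
    have hq4 : q < 4 := by
      by_contra h1
      have h2 : (4 : ℚ) ≤ q := by exact_mod_cast not_lt.mp h1
      nlinarith
    interval_cases q
    · left; push_cast at hq; linarith
    · right; left; push_cast at hq; linarith
    · right; right; left; push_cast at hq; linarith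
  · have e1 : ∀ t : ℚ, b t 1 = 1 := b_one
    have e2 : ∀ t : ℚ, b t 2 = t := fun t => by
      rw [show 2 = 2 * 1 by norm_num, b_even, e1, mul_one]
    have e3 : ∀ t : ℚ, b t 3 = t + 1 := fun t => by
      rw [show 3 = 2 * 1 + 1 by norm_num, b_odd, e1, e2, add_comm]
    have e5 : ∀ t : ℚ, b t 5 = 2 * t + 1 := fun t => by
      rw [show 5 = 2 * 2 + 1 by norm_num, b_odd, e2, e3]; ring
    have e6 : ∀ t : ℚ, b t 6 = t * (t + 1) := fun t => by
      rw [show 6 = 2 * 3 by norm_num, b_even, e3]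
    have e10 : ∀ t : ℚ, b t 10 = t * (2 * t + 1) := fun t => by
      rw [show 10 = 2 * 5 by norm_num, b_even, e5]
    have e11 : ∀ t : ℚ, b t 11 = t ^ 2 + 3 * t + 1 := fun t => by
      rw [show 11 = 2 * 5 + 1 by norm_num, b_odd, e5, e6]; ring
    have e21 : ∀ t : ℚ, b t 21 = (3 * t + 1) * (t + 1) := fun t => by
      rw [show 21 = 2 * 10 + 1 by norm_num, b_odd, e10, e11]; ring
    rintro (rfl | rfl | rfl | rfl)
    · exact ⟨3, by norm_num, by rw [← b, e3]; norm_num⟩
    · exact ⟨5, by norm_num, by rw [← b, e5]; norm_num⟩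
    · exact ⟨21, by norm_num, by rw [← b, e21]; norm_num⟩
    · exact ⟨2, by norm_num, by rw [← b, e2]⟩

end Pool.Agent.Results.MP_32086b_nt.RationalRoots
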